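import Pool.Agent.Helper5.BD.Defs

/-!
# Module D4: counting pairs of nodes
-/

noncomputable section

open Finset Helper5.CR Classical

namespace Helper5.BD

variable {V E X : Type} [Fintype V] [Fintype E] [Fintype X] {C : CSys V E X} {d : ℕ}

/-- the edges with the same low end -/
def d4sib (O : Ori C d) (e : E) : Finset E := univ.filter (fun g => O.lo g = O.lo e)

theorem card_d4sib (O : Ori C d) (e : E) : (d4sib O e).card ≤ d := O.out (O.lo e)

/-- nodes using `e` -/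
def d4nod (O : Ori C d) (e : E) : Finset ((V × V) × V) :=
  (d4sib O e).image (fun g => ((O.hi e, O.hi g), O.lo e)) ∪
    (d4sib O e).image (fun g => ((O.hi g, O.hi e), O.lo e))

theorem card_d4nod (O : Ori C d) (e : E) : (d4nod O e).card ≤ 2 * d := by
  unfold d4nod
  refine le_trans (card_union_le _ _) ?_
  have h1 := card_image_le (s := d4sib O e) (f := fun g => ((O.hi e, O.hi g), O.lo e))
  have h2 := card_image_le (s := d4sib O e) (f := fun g => ((O.hi g, O.hi e), O.lo e))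
  have h3 := card_d4sib O e
  omega

theorem mem_d4nod (O : Ori C d) {p : V × V} {a : V} {e : E} (h : a ∈ O.com p) (hu : O.uses p a e) :
    (p, a) ∈ d4nod O e := by
  obtain ⟨ha, hb⟩ := hu
  have hc : O.arc a p.1 ∧ O.arc a p.2 := by
    simpa [Ori.com] using h
  obtain ⟨⟨g1, h11, h12⟩, ⟨g2, h21, h22⟩⟩ := hc
  unfold d4nod d4sib
  rw [mem_union, mem_image, mem_image]
  rcases hb with hb | hb
  · left
    refine ⟨g2, ?_, ?_⟩
    · simp [h21, ha]
    · rw [hb, h22, ha]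
  · right
    refine ⟨g1, ?_, ?_⟩
    · simp [h11, ha]
    · rw [hb, h12, ha]

/-- D4.  Number of pairs of nodes with the same representative. -/
theorem count_same (O : Ori C d) :
    (univ.filter (fun q : (V × V) × (V × V) × V => q.2.2 ∈ O.com q.1 ∧ q.2.2 ∈ O.com q.2.1)).card ≤
      d ^ 4 * Fintype.card E := by
  have hsub : univ.filter (fun q : (V × V) × (V × V) × V => q.2.2 ∈ O.com q.1 ∧
      q.2.2 ∈ O.com q.2.1) ⊆ (univ : Finset E).biUnion (fun e =>
        (d4sib O e ×ˢ d4sib O e ×ˢ d4sib O e).image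
          (fun t => ((O.hi e, O.hi t.1), ((O.hi t.2.1, O.hi t.2.2), O.lo e)))) := by
    rintro ⟨⟨p1, p2⟩, ⟨⟨p3, p4⟩, a⟩⟩ hq
    rw [mem_filter] at hq
    obtain ⟨-, h1, h2⟩ := hq
    have hc : O.arc a p1 ∧ O.arc a p2 := by simpa [Ori.com] using h1
    have hc2 : O.arc a p3 ∧ O.arc a p4 := by simpa [Ori.com] using h2
    obtain ⟨⟨g1, a1, b1⟩, ⟨g2, a2, b2⟩⟩ := hc
    obtain ⟨⟨g3, a3, b3⟩, ⟨g4, a4, b4⟩⟩ := hc2
    rw [mem_biUnion]
    refine ⟨g1, mem_univ _, ?_⟩
    rw [mem_image]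
    refine ⟨(g2, g3, g4), ?_, ?_⟩
    · simp [d4sib, a1, a2, a3, a4]
    · simp only [b1, b2, b3, b4, a1]
  refine le_trans (card_le_card hsub) ?_
  refine le_trans card_biUnion_le ?_
  have hle : ∀ e ∈ (univ : Finset E), ((d4sib O e ×ˢ d4sib O e ×ˢ d4sib O e).image
      (fun t => ((O.hi e, O.hi t.1), ((O.hi t.2.1, O.hi t.2.2), O.lo e)))).card ≤ d ^ 4 := by
    intro e _
    refine le_trans card_image_le ?_
    rw [card_product, card_product]
    have h3 := card_d4sib O e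
    have h4 : (d4sib O e).card * ((d4sib O e).card * (d4sib O e).card) ≤ d * (d * d) :=
      Nat.mul_le_mul h3 (Nat.mul_le_mul h3 h3)
    have h5 : 0 < (d4sib O e).card := by
      rw [card_pos]
      exact ⟨e, by simp [d4sib]⟩
    have h6 : 1 ≤ d := by omega
    have h7 : d * (d * d) = d ^ 3 := by ring
    have h8 : d ^ 3 ≤ d ^ 4 := Nat.pow_le_pow_right h6 (by norm_num)
    omega
  refine le_trans (sum_le_card_nsmul _ _ _ hle) ?_
  rw [card_univ, smul_eq_mul, Nat.mul_comm]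

/-- D4.  Number of pairs of nodes using crossing edges. -/
theorem count_cross (O : Ori C d) :
    (univ.filter (fun q : ((V × V) × V) × ((V × V) × V) => q.1.2 ∈ O.com q.1.1 ∧
      q.2.2 ∈ O.com q.2.1 ∧ ∃ e f, O.uses q.1.1 q.1.2 e ∧ O.uses q.2.1 q.2.2 f ∧ Ori.crs C e f)).card ≤
      8 * d ^ 2 * Fintype.card X := by
  have hsub : univ.filter (fun q : ((V × V) × V) × ((V × V) × V) => q.1.2 ∈ O.com q.1.1 ∧
      q.2.2 ∈ O.com q.2.1 ∧ ∃ e f, O.uses q.1.1 q.1.2 e ∧ O.uses q.2.1 q.2.2 f ∧ Ori.crs C e f) ⊆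
      (univ : Finset X).biUnion (fun x => (d4nod O (C.e₁ x) ×ˢ d4nod O (C.e₂ x)) ∪
        (d4nod O (C.e₂ x) ×ˢ d4nod O (C.e₁ x))) := by
    rintro ⟨⟨p, a⟩, ⟨q, b⟩⟩ hq
    rw [mem_filter] at hq
    obtain ⟨-, h1, h2, e, f, h3, h4, x, hx⟩ := hq
    rw [mem_biUnion]
    refine ⟨x, mem_univ _, ?_⟩
    have m1 := mem_d4nod O h1 h3
    have m2 := mem_d4nod O h2 h4
    rw [mem_union, mem_product, mem_product]
    rcases hx with ⟨rfl, rfl⟩ | ⟨rfl, rfl⟩
    · exact Or.inl ⟨m1, m2⟩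
    · exact Or.inr ⟨m1, m2⟩
  refine le_trans (card_le_card hsub) ?_
  refine le_trans card_biUnion_le ?_
  have hle : ∀ x ∈ (univ : Finset X), ((d4nod O (C.e₁ x) ×ˢ d4nod O (C.e₂ x)) ∪
        (d4nod O (C.e₂ x) ×ˢ d4nod O (C.e₁ x))).card ≤ 8 * d ^ 2 := by
    intro x _
    refine le_trans (card_union_le _ _) ?_
    rw [card_product, card_product]
    have h1 := card_d4nod O (C.e₁ x)
    have h2 := card_d4nod O (C.e₂ x)
    have h3 := Nat.mul_le_mul h1 h2
    have h4 := Nat.mul_le_mul h2 h1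
    have h5 : 8 * d ^ 2 = (2 * d) * (2 * d) + (2 * d) * (2 * d) := by ring
    omega
  refine le_trans (sum_le_card_nsmul _ _ _ hle) ?_
  rw [card_univ, smul_eq_mul, Nat.mul_comm]

end Helper5.BD
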